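import Pool.Agent.Results.MP_3eb465_an.TwoSolutionsOnEpigraph

set_option autoImplicit false

/-!
Adding variables: for an injection `e : Fin m → Fin M` the map `P X = X ∘ e` from `ℝ^M` to `ℝ^m` pulls back
uniformly smooth domains and positive bounded solutions.
-/

open Metric Set
open scoped InnerProductSpace

namespace Pool.Agent.Y520.EP

open Pool.Agent.Results.MP_3eb465_an.TwoSolutionsOnEpigraph

variable {m M : ℕ}

/-- `X ↦ X ∘ e` -/
noncomputable def P (e : Fin m → Fin M) : EuclideanSpace ℝ (Fin M) →L[ℝ] EuclideanSpace ℝ (Fin m) :=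
  LinearMap.toContinuousLinearMap
    { toFun := fun X => WithLp.toLp 2 (fun i => X (e i))
      map_add' := fun X Y => by ext i; simp
      map_smul' := fun c X => by ext i; simp }

/-- extension by zero -/
noncomputable def J (e : Fin m → Fin M) (Y : EuclideanSpace ℝ (Fin m)) : EuclideanSpace ℝ (Fin M) :=
  WithLp.toLp 2 (Function.extend e (fun i => Y i) 0)

theorem P_apply (e : Fin m → Fin M) (X : EuclideanSpace ℝ (Fin M)) (i : Fin m) : P e X i = X (e i) := rfl

theorem P_J {e : Fin m → Fin M} (he : Function.Injective e) (Y : EuclideanSpace ℝ (Fin m)) :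
    P e (J e Y) = Y := by
  ext i
  rw [P_apply]
  exact he.extend_apply _ _ _

theorem inner_J {e : Fin m → Fin M} (he : Function.Injective e) (X : EuclideanSpace ℝ (Fin M))
    (Y : EuclideanSpace ℝ (Fin m)) : inner ℝ X (J e Y) = inner ℝ (P e X) Y := by
  rw [PiLp.inner_apply, PiLp.inner_apply]
  symm
  refine Fintype.sum_of_injective e he _ _ ?_ ?_
  · intro j hj
    have h : (J e Y) j = 0 := by
      have h1 : ¬ ∃ i, e i = j := fun ⟨i, hi⟩ => hj ⟨i, hi⟩
      exact (Function.extend_apply' _ _ _ h1)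
    rw [h]
    simp
  · intro i
    have h : (J e Y) (e i) = Y i := he.extend_apply _ _ _
    rw [h, P_apply]

theorem norm_J {e : Fin m → Fin M} (he : Function.Injective e) (Y : EuclideanSpace ℝ (Fin m)) :
    ‖J e Y‖ = ‖Y‖ := by
  have h1 : ‖J e Y‖ ^ 2 = ‖Y‖ ^ 2 := by
    rw [← real_inner_self_eq_norm_sq, ← real_inner_self_eq_norm_sq, inner_J he, P_J he]
  nlinarith [norm_nonneg (J e Y), norm_nonneg Y, sq_nonneg (‖J e Y‖ - ‖Y‖)]

theorem norm_P_le {e : Fin m → Fin M} (he : Function.Injective e) (X : EuclideanSpace ℝ (Fin M)) :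
    ‖P e X‖ ≤ ‖X‖ := by
  have h1 : ‖P e X‖ ^ 2 ≤ ‖X‖ * ‖P e X‖ := by
    rw [← real_inner_self_eq_norm_sq, ← inner_J he]
    refine (real_inner_le_norm _ _).trans ?_
    rw [norm_J he]
  by_contra hc
  push Not at hc
  have h0 := norm_nonneg X
  nlinarith

theorem opNorm_P_le {e : Fin m → Fin M} (he : Function.Injective e) : ‖P e‖ ≤ 1 :=
  ContinuousLinearMap.opNorm_le_bound _ zero_le_one fun X => by
    rw [one_mul]; exact norm_P_le he X

theorem surj_P {e : Fin m → Fin M} (he : Function.Injective e) : Function.Surjective (P e) :=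
  fun Y => ⟨J e Y, P_J he Y⟩

theorem open_P {e : Fin m → Fin M} (he : Function.Injective e) : IsOpenMap (P e) :=
  (P e).isOpenMap (surj_P he)

theorem P_single {e : Fin m → Fin M} (he : Function.Injective e) (i : Fin m) :
    P e (EuclideanSpace.single (e i) (1 : ℝ)) = EuclideanSpace.single i (1 : ℝ) := by
  ext k
  rw [P_apply]
  simp only [EuclideanSpace.single_apply, he.eq_iff]

theorem P_single' {e : Fin m → Fin M} {j : Fin M} (hj : j ∉ Set.range e) :
    P e (EuclideanSpace.single j (1 : ℝ)) = 0 := by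
  ext k
  rw [P_apply]
  simp only [EuclideanSpace.single_apply]
  rw [if_neg (fun h => hj ⟨k, h⟩)]
  rfl

/-- second derivatives of `u ∘ P` -/
theorem iter_P {e : Fin m → Fin M} {Ω : Set (EuclideanSpace ℝ (Fin m))} (hΩ : IsOpen Ω)
    {u : EuclideanSpace ℝ (Fin m) → ℝ} (hu : ContDiffOn ℝ 2 u Ω) {X : EuclideanSpace ℝ (Fin M)}
    (hX : P e X ∈ Ω) : iteratedFDeriv ℝ 2 (u ∘ P e) X =
      (iteratedFDeriv ℝ 2 u (P e X)).compContinuousLinearMap fun _ => P e := by
  have h1 := (P e).iteratedFDerivWithin_comp_right hu hΩ.uniqueDiffOn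
    ((hΩ.preimage (P e).continuous).uniqueDiffOn) hX (i := 2) le_rfl
  rw [iteratedFDerivWithin_of_isOpen 2 hΩ hX,
    iteratedFDerivWithin_of_isOpen 2 (hΩ.preimage (P e).continuous) hX] at h1
  exact h1

theorem lap_P {e : Fin m → Fin M} (he : Function.Injective e) {Ω : Set (EuclideanSpace ℝ (Fin m))}
    (hΩ : IsOpen Ω) {u : EuclideanSpace ℝ (Fin m) → ℝ} (hu : ContDiffOn ℝ 2 u Ω)
    {X : EuclideanSpace ℝ (Fin M)} (hX : P e X ∈ Ω) :
    (Laplacian.laplacian (u ∘ P e)) X = (Laplacian.laplacian u) (P e X) := by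
  rw [← Pool.Agent.H52R3.Epi.lap_eq_laplacian, ← Pool.Agent.H52R3.Epi.lap_eq_laplacian]
  unfold Pool.Agent.H314.Dir.lap
  symm
  refine Fintype.sum_of_injective e he _ _ ?_ ?_
  · intro j hj
    rw [iter_P hΩ hu hX, ContinuousMultilinearMap.compContinuousLinearMap_apply]
    apply (iteratedFDeriv ℝ 2 u (P e X)).map_coord_zero (0 : Fin 2)
    exact P_single' hj
  · intro i
    rw [iter_P hΩ hu hX, ContinuousMultilinearMap.compContinuousLinearMap_apply]
    congr 1
    funext _
    exact (P_single he i).symm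

/-- positive bounded solutions are pulled back -/
theorem sol_P {e : Fin m → Fin M} (he : Function.Injective e) {Ω : Set (EuclideanSpace ℝ (Fin m))}
    (hΩ : IsOpen Ω) {f : ℝ → ℝ} {u : EuclideanSpace ℝ (Fin m) → ℝ}
    (hu : IsPositiveBoundedSolution f Ω u) :
    IsPositiveBoundedSolution f (P e ⁻¹' Ω) (u ∘ P e) := by
  refine ⟨hu.contDiffOn.comp (P e).contDiff.contDiffOn (fun X hX => hX), ?_, ?_, ?_, ?_, ?_⟩
  · rw [← (open_P he).preimage_closure_eq_closure_preimage (P e).continuous]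
    exact hu.continuousOn.comp (P e).continuous.continuousOn (fun X hX => hX)
  · obtain ⟨C, hC⟩ := hu.bounded
    exact ⟨C, fun X hX => hC _ hX⟩
  · exact fun X hX => hu.pos _ hX
  · intro X hX
    rw [← (open_P he).preimage_frontier_eq_frontier_preimage (P e).continuous] at hX
    exact hu.boundary _ hX
  · intro X hX
    rw [lap_P he hΩ hu.contDiffOn hX]
    exact hu.equation _ hX

/-- uniformly smooth domains are pulled back -/
theorem smooth_P {e : Fin m → Fin M} (he : Function.Injective e) {Ω : Set (EuclideanSpace ℝ (Fin m))}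
    {γ : NNReal} (h : UniformlySmooth γ Ω) : UniformlySmooth γ (P e ⁻¹' Ω) := by
  obtain ⟨r, hr, K, hK⟩ := h
  refine ⟨r, hr, K, ?_⟩
  intro p hp
  rw [← (open_P he).preimage_frontier_eq_frontier_preimage (P e).continuous] at hp
  obtain ⟨ν, hν, g, g1, g2, g3, g4⟩ := hK _ hp
  have hi : ∀ x, iteratedFDeriv ℝ 2 (g ∘ P e) x =
      (iteratedFDeriv ℝ 2 g (P e x)).compContinuousLinearMap fun _ => P e := fun x =>
    iter_P isOpen_univ g1.contDiffOn (mem_univ _)
  have hn := opNorm_P_le he
  have hn0 := norm_nonneg (P e)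
  have hcomp : ∀ A : EuclideanSpace ℝ (Fin m) [×2]→L[ℝ] ℝ,
      ‖A.compContinuousLinearMap fun _ => P e‖ ≤ ‖A‖ := by
    intro A
    refine (A.norm_compContinuousLinearMap_le _).trans ?_
    have h1 : ∏ _i : Fin 2, ‖P e‖ ≤ 1 := Finset.prod_le_one (fun _ _ => hn0) (fun _ _ => hn)
    calc ‖A‖ * ∏ _i : Fin 2, ‖P e‖ ≤ ‖A‖ * 1 := by gcongr
      _ = ‖A‖ := mul_one _
  refine ⟨J e ν, by rw [norm_J he, hν], g ∘ P e, g1.comp (P e).contDiff, ?_, ?_, ?_⟩
  · intro x
    obtain ⟨a1, a2, a3⟩ := g2 (P e x)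
    refine ⟨a1, ?_, ?_⟩
    · have h1 : fderiv ℝ (g ∘ P e) x = (fderiv ℝ g (P e x)).comp (P e) := by
        rw [fderiv_comp x (g1.differentiable (by norm_num) _) (P e).differentiableAt,
          ContinuousLinearMap.fderiv]
      rw [h1]
      refine (ContinuousLinearMap.opNorm_comp_le _ _).trans ?_
      calc ‖fderiv ℝ g (P e x)‖ * ‖P e‖ ≤ ‖fderiv ℝ g (P e x)‖ * 1 := by gcongr
        _ ≤ K := by rw [mul_one]; exact a2
    · rw [hi]
      exact (hcomp _).trans a3
  · intro x y
    rw [hi, hi]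
    have h1 : edist ((iteratedFDeriv ℝ 2 g (P e x)).compContinuousLinearMap fun _ => P e)
        ((iteratedFDeriv ℝ 2 g (P e y)).compContinuousLinearMap fun _ => P e) ≤
        edist (iteratedFDeriv ℝ 2 g (P e x)) (iteratedFDeriv ℝ 2 g (P e y)) := by
      rw [edist_dist, edist_dist, dist_eq_norm, dist_eq_norm]
      apply ENNReal.ofReal_le_ofReal
      refine le_trans (le_of_eq ?_) (hcomp (iteratedFDeriv ℝ 2 g (P e x) - iteratedFDeriv ℝ 2 g (P e y)))
      congr 1
    refine h1.trans ((g3 _ _).trans ?_)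
    have h2 : edist (P e x) (P e y) ≤ edist x y := by
      rw [edist_dist, edist_dist, dist_eq_norm, dist_eq_norm, ← map_sub]
      exact ENNReal.ofReal_le_ofReal (norm_P_le he _)
    gcongr
  · intro q hq
    have h1 : P e q ∈ ball (P e p) r := by
      rw [mem_ball, dist_eq_norm, ← map_sub]
      rw [mem_ball, dist_eq_norm] at hq
      exact (norm_P_le he _).trans_lt hq
    have h2 := g4 _ h1
    have h3 : inner ℝ (q - p) (J e ν) = inner ℝ (P e q - P e p) ν := by
      rw [inner_J he, map_sub]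
    have h4 : (g ∘ P e) (q - p - (inner ℝ (q - p) (J e ν)) • J e ν) =
        g (P e q - P e p - (inner ℝ (P e q - P e p) ν) • ν) := by
      show g (P e _) = _
      rw [map_sub, map_sub, map_smul, P_J he, h3]
    rw [h3] at h4 ⊢
    rw [h4]
    exact h2

/-- the injection which keeps the last coordinate the last one -/
def emb {n N : ℕ} (h : n ≤ N) : Fin (n + 1) → Fin (N + 1) :=
  Fin.lastCases (Fin.last N) (fun i => Fin.castSucc (Fin.castLE h i))

theorem emb_last {n N : ℕ} (h : n ≤ N) : emb h (Fin.last n) = Fin.last N := Fin.lastCases_last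

theorem emb_castSucc {n N : ℕ} (h : n ≤ N) (i : Fin n) :
    emb h (Fin.castSucc i) = Fin.castSucc (Fin.castLE h i) := Fin.lastCases_castSucc i

theorem emb_inj {n N : ℕ} (h : n ≤ N) : Function.Injective (emb h) := by
  intro i j
  refine Fin.lastCases ?_ (fun i => ?_) i <;> refine Fin.lastCases ?_ (fun j => ?_) j
  · intro _; rfl
  · rw [emb_last, emb_castSucc]
    intro h1
    exact absurd h1.symm (Fin.castSucc_lt_last _).ne
  · rw [emb_last, emb_castSucc]
    intro h1
    exact absurd h1 (Fin.castSucc_lt_last _).ne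
  · rw [emb_castSucc, emb_castSucc]
    intro h1
    have h2 := Fin.castSucc_injective _ h1
    rw [Fin.castLE_injective h h2]

/-- the epigraph of `φ` with added variables -/
theorem epi_P {n N : ℕ} (h : n ≤ N) (φ : (Fin n → ℝ) → ℝ) :
    epigraph (fun w : Fin N → ℝ => φ (fun i => w (Fin.castLE h i))) = P (emb h) ⁻¹' epigraph φ := by
  ext X
  unfold epigraph
  simp only [mem_setOf_eq, mem_preimage, P_apply, emb_last, emb_castSucc]

end Pool.Agent.Y520.EP
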