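import Pool.Agent.H314.Dir.Unif

set_option autoImplicit false

/-!
The theorem `unif_graph` of `Pool/Agent/H314/Dir/Unif.lean` for all `0 < γ ≤ 1` (there `γ < 1`); the proof is the
one given there.
-/

open MeasureTheory Filter Topology Set Metric

namespace Pool.Agent.Y520.EP

open Pool.Agent.H314.Dir

theorem holder1 {d : ℕ} (g : Eu d → ℝ) (hg : ContDiff ℝ 3 g) (M' : ℝ) (hM : 0 ≤ M')
    (h2 : ∀ x, ‖iteratedFDeriv ℝ 2 g x‖ ≤ M') (h3 : ∀ x, ‖iteratedFDeriv ℝ 3 g x‖ ≤ M')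
    (γ : NNReal) (hγ0 : 0 < γ) (hγ1 : γ ≤ 1) :
    HolderWith ⟨2 * M', by positivity⟩ γ (iteratedFDeriv ℝ 2 g) := by
  have hlip : LipschitzWith ⟨M', hM⟩ (iteratedFDeriv ℝ 2 g) := by
    refine lipschitzWith_of_nnnorm_fderiv_le
      (hg.differentiable_iteratedFDeriv (m := 2) (by norm_num)) fun x => ?_
    have h4 := h3 x
    rw [← norm_fderiv_iteratedFDeriv] at h4
    exact h4
  have hdist : ∀ x y, dist (iteratedFDeriv ℝ 2 g x) (iteratedFDeriv ℝ 2 g y) ≤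
      (2 * M') * dist x y ^ (γ : ℝ) := by
    intro x y
    have hγ0' : (0 : ℝ) < γ := by exact_mod_cast hγ0
    have hγ1' : (γ : ℝ) ≤ 1 := by exact_mod_cast hγ1
    rcases le_or_gt (dist x y) 1 with h4 | h4
    · have h5 := hlip.dist_le_mul x y
      have h6 : dist x y ≤ dist x y ^ (γ : ℝ) := by
        rcases (dist_nonneg (x := x) (y := y)).eq_or_lt with h7 | h7
        · rw [← h7, Real.zero_rpow hγ0'.ne']
        · have := Real.rpow_le_rpow_of_exponent_ge h7 h4 hγ1'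
          rwa [Real.rpow_one] at this
      calc _ ≤ M' * dist x y := h5
        _ ≤ M' * dist x y ^ (γ : ℝ) := mul_le_mul_of_nonneg_left h6 hM
        _ ≤ (2 * M') * dist x y ^ (γ : ℝ) := by
          refine mul_le_mul_of_nonneg_right (by linarith) (Real.rpow_nonneg dist_nonneg _)
    · have h5 : dist (iteratedFDeriv ℝ 2 g x) (iteratedFDeriv ℝ 2 g y) ≤ 2 * M' := by
        rw [dist_eq_norm]
        refine (norm_sub_le _ _).trans ?_
        linarith [h2 x, h2 y]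
      have h6 : 1 ≤ dist x y ^ (γ : ℝ) := Real.one_le_rpow h4.le hγ0'.le
      calc _ ≤ (2 * M') * 1 := by linarith
        _ ≤ _ := mul_le_mul_of_nonneg_left h6 (by positivity)
  intro x y
  have hγ0' : (0 : ℝ) ≤ γ := γ.2
  rw [edist_dist, edist_dist, ENNReal.ofReal_rpow_of_nonneg dist_nonneg hγ0']
  have hK0 : 0 ≤ 2 * M' := by positivity
  set K : NNReal := ⟨2 * M', hK0⟩ with hK
  have h4 : (K : ENNReal) = ENNReal.ofReal (2 * M') := by
    have h5 : (K : ℝ) = 2 * M' := rfl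
    rw [← h5, ENNReal.ofReal_coe_nnreal]
  rw [h4, ← ENNReal.ofReal_mul (by positivity)]
  exact ENNReal.ofReal_le_ofReal (hdist x y)


/-- TARGET 1. A sublevel set of a function with bounded derivatives and nondegenerate gradient has
a uniformly smooth boundary. -/
theorem unif_graph1 {d : ℕ} (F : Eu d → ℝ) (hF : ContDiff ℝ 3 F) (c C : ℝ) (hc : 0 < c)
    (hgrad : ∀ p, F p = 0 → c ≤ ‖fderiv ℝ F p‖)
    (hbd : ∀ p, F p = 0 → ∀ x ∈ ball p 1, ‖fderiv ℝ F x‖ ≤ C ∧ ‖iteratedFDeriv ℝ 2 F x‖ ≤ C ∧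
      ‖iteratedFDeriv ℝ 3 F x‖ ≤ C) (γ : NNReal) (hγ0 : 0 < γ) (hγ1 : γ ≤ 1) :
    ∃ r : ℝ, 0 < r ∧ ∃ M : NNReal, ∀ p, F p = 0 →
      ∃ ν : Eu d, ‖ν‖ = 1 ∧ ∃ g : Eu d → ℝ, ContDiff ℝ 2 g ∧
        (∀ x, abs (g x) ≤ (M : ℝ) ∧ ‖fderiv ℝ g x‖ ≤ (M : ℝ) ∧
          ‖iteratedFDeriv ℝ 2 g x‖ ≤ (M : ℝ)) ∧
        HolderWith M γ (iteratedFDeriv ℝ 2 g) ∧
        ∀ q ∈ ball p r,
          (F q < 0 ↔ g (q - p - (inner ℝ (q - p) ν) • ν) < inner ℝ (q - p) ν) := by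
  obtain ⟨B, hB0, hcut⟩ := dr_cut d
  set C1 := max C 1 with hC1
  have hC1pos : 0 < C1 := lt_of_lt_of_le one_pos (le_max_right _ _)
  have hCC1 : C ≤ C1 := le_max_left _ _
  set r := min (1 / 4) (c / (2 * ((4 * B + 2) * C1))) with hr
  have hden : 0 < 2 * ((4 * B + 2) * C1) := by positivity
  have hr0 : 0 < r := lt_min (by norm_num) (by positivity)
  have hr4 : r ≤ 1 / 4 := min_le_left _ _
  have hrc : (4 * B + 2) * C1 * r ≤ c / 2 := by
    have h1 : r ≤ c / (2 * ((4 * B + 2) * C1)) := min_le_right _ _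
    rw [le_div_iff₀ hden] at h1
    linarith
  obtain ⟨χ, B', hB'0, hχ3, hχ1, hχd, hχone, hχn, hχout⟩ := hcut r hr0
  set C' := c⁻¹ * (8 * B' * C1) with hC'
  obtain ⟨M', hM'0, hM'⟩ := graph_fixed (d := d) C'
  refine ⟨r, hr0, ⟨2 * M', by positivity⟩, fun p hp => ?_⟩
  set L := fderiv ℝ F p with hL
  have hLc : c ≤ ‖L‖ := hgrad p hp
  have hLpos : 0 < ‖L‖ := lt_of_lt_of_le hc hLc
  set m := (InnerProductSpace.toDual ℝ (Eu d)).symm L with hm
  have hmn : ‖m‖ = ‖L‖ := by rw [hm]; exact LinearIsometryEquiv.norm_map _ _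
  have hLm : ∀ ξ, L ξ = inner ℝ m ξ := fun ξ => (InnerProductSpace.toDual_symm_apply).symm
  set ν : Eu d := (-‖L‖⁻¹) • m with hν
  have hν1 : ‖ν‖ = 1 := by
    rw [hν, norm_smul, norm_neg, norm_inv, norm_norm, hmn, inv_mul_cancel₀ hLpos.ne']
  have hLν : ∀ ξ, L ξ = -(‖L‖ * inner ℝ ξ ν) := by
    intro ξ
    rw [hν, inner_smul_right, real_inner_comm, ← hLm]
    field_simp
  set R : Eu d → ℝ := fun ξ => F (p + ξ) - L ξ with hR
  have hR3 : ContDiff ℝ 3 R := (hF.comp (contDiff_const.add contDiff_id)).sub L.contDiff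
  have hmv := fun ξ hξ => dr_mv F hF C1 p hp (fun x hx => (hbd p hp x hx).2.1.trans hCC1) ξ hξ
  have hdF : ∀ x, DifferentiableAt ℝ F x := fun x => (hF.differentiable (by norm_num)) x
  have hRd : ∀ ξ, fderiv ℝ R ξ = fderiv ℝ F (p + ξ) - L := by
    intro ξ
    have h1 : DifferentiableAt ℝ (fun ξ => F (p + ξ)) ξ :=
      (hdF (p + ξ)).comp ξ ((differentiableAt_const p).add differentiableAt_id)
    rw [hR, fderiv_fun_sub h1 L.differentiableAt, ContinuousLinearMap.fderiv, fderiv_comp_add_left]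
  have hRb : ∀ ξ : Eu d, ‖ξ‖ ≤ 2 * r → ∀ k ≤ 3, ‖iteratedFDeriv ℝ k R ξ‖ ≤ C1 := by
    intro ξ hξ k hk
    have hξ1 : ‖ξ‖ < 1 := by linarith
    have hin : p + ξ ∈ ball p 1 := by
      rw [mem_ball, dist_eq_norm, add_sub_cancel_left]; exact hξ1
    have hξ0 := norm_nonneg ξ
    interval_cases k
    · rw [norm_iteratedFDeriv_zero, Real.norm_eq_abs]
      refine (hmv ξ hξ1).2.trans ?_
      have : ‖ξ‖ ^ 2 ≤ 1 := by nlinarith
      nlinarith
    · rw [norm_iteratedFDeriv_one, hRd]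
      refine (hmv ξ hξ1).1.trans ?_
      nlinarith
    · rw [hR, dr_R_iter F hF p ξ L 0]
      exact (hbd p hp _ hin).2.1.trans hCC1
    · rw [hR, dr_R_iter F hF p ξ L 1]
      exact (hbd p hp _ hin).2.2.trans hCC1
  set rr : Eu d → ℝ := ‖L‖⁻¹ • (fun ξ => χ ξ * R ξ) with hrr
  have hprod3 : ContDiff ℝ 3 (fun ξ => χ ξ * R ξ) := hχ3.mul hR3
  have hrr3 : ContDiff ℝ 3 rr := by
    have h0 : ContDiff ℝ 3 (fun y => ‖L‖⁻¹ • (χ y * R y)) := hprod3.const_smul _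
    exact h0
  have hinv : ‖L‖⁻¹ ≤ c⁻¹ := inv_anti₀ hc hLc
  have hrrn : ∀ n : ℕ, n ≤ 3 → ∀ x, ‖iteratedFDeriv ℝ n rr x‖ =
      ‖L‖⁻¹ * ‖iteratedFDeriv ℝ n (fun ξ => χ ξ * R ξ) x‖ := by
    intro n hn x
    rw [hrr, iteratedFDeriv_const_smul_apply ((hprod3.of_le (by exact_mod_cast hn)).contDiffAt),
      norm_smul, Real.norm_of_nonneg (by positivity)]
  have hprodn : ∀ n : ℕ, n ≤ 3 → ∀ x, ‖iteratedFDeriv ℝ n (fun ξ => χ ξ * R ξ) x‖ ≤
      8 * B' * C1 := by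
    intro n hn x
    have h1 := norm_iteratedFDeriv_mul_le (𝕜 := ℝ) (N := 3) hχ3 hR3 x (n := n) (by exact_mod_cast hn)
    refine h1.trans ?_
    rcases le_or_gt ‖x‖ (2 * r) with h2 | h2
    · have h3 : ∑ i ∈ Finset.range (n + 1), (n.choose i : ℝ) * ‖iteratedFDeriv ℝ i χ x‖ *
          ‖iteratedFDeriv ℝ (n - i) R x‖ ≤ ∑ i ∈ Finset.range (n + 1), (n.choose i : ℝ) * (B' * C1) := by
        refine Finset.sum_le_sum fun i hi => ?_
        have hi' := Finset.mem_range.mp hi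
        rw [mul_assoc]
        refine mul_le_mul_of_nonneg_left ?_ (Nat.cast_nonneg _)
        exact mul_le_mul (hχn i (by omega) x) (hRb x h2 (n - i) (by omega)) (norm_nonneg _) hB'0
      refine h3.trans ?_
      rw [← Finset.sum_mul]
      have h4 : ∑ i ∈ Finset.range (n + 1), (n.choose i : ℝ) = 2 ^ n := by
        exact_mod_cast Nat.sum_range_choose n
      rw [h4]
      have h5 : (2 : ℝ) ^ n ≤ 2 ^ 3 := pow_le_pow_right₀ (by norm_num) hn
      have h6 : 0 ≤ B' * C1 := by positivity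
      nlinarith
    · have h3 : ∑ i ∈ Finset.range (n + 1), (n.choose i : ℝ) * ‖iteratedFDeriv ℝ i χ x‖ *
          ‖iteratedFDeriv ℝ (n - i) R x‖ = 0 := by
        refine Finset.sum_eq_zero fun i _ => ?_
        rw [hχout x h2 i, norm_zero, mul_zero, zero_mul]
      rw [h3]
      positivity
  have hrrb : ∀ n : ℕ, n ≤ 3 → ∀ x, ‖iteratedFDeriv ℝ n rr x‖ ≤ C' := by
    intro n hn x
    rw [hrrn n hn x, hC']
    exact mul_le_mul hinv (hprodn n hn x) (norm_nonneg _) (by positivity)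
  have hrr1 : ∀ x, ‖fderiv ℝ rr x‖ ≤ 1 / 2 := by
    intro x
    rw [← norm_iteratedFDeriv_one, hrrn 1 (by norm_num) x]
    have h1 := norm_iteratedFDeriv_mul_le (𝕜 := ℝ) (N := 3) hχ3 hR3 x (n := 1) (by norm_num)
    rw [Finset.sum_range_succ, Finset.sum_range_one] at h1
    simp only [Nat.choose_zero_right, Nat.choose_self, Nat.cast_one, one_mul, Nat.sub_zero,
      norm_iteratedFDeriv_zero, norm_iteratedFDeriv_one] at h1
    rw [show (1 - 1 : ℕ) = 0 from rfl, norm_iteratedFDeriv_zero] at h1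
    have h2 : ‖iteratedFDeriv ℝ 1 (fun ξ => χ ξ * R ξ) x‖ ≤ c / 2 := by
      rw [norm_iteratedFDeriv_one]
      refine h1.trans ?_
      rcases le_or_gt ‖x‖ (2 * r) with h2 | h2
      · have hx1 : ‖x‖ < 1 := by linarith
        have e1 : ‖χ x‖ ≤ 1 := hχ1 x
        have e2 : ‖fderiv ℝ R x‖ ≤ C1 * (2 * r) := by
          rw [hRd]
          exact (hmv x hx1).1.trans (mul_le_mul_of_nonneg_left h2 hC1pos.le)
        have e3 : ‖R x‖ ≤ C1 * (2 * r) ^ 2 := by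
          rw [Real.norm_eq_abs]
          exact (hmv x hx1).2.trans (mul_le_mul_of_nonneg_left
            (pow_le_pow_left₀ (norm_nonneg _) h2 2) hC1pos.le)
        have e4 : ‖χ x‖ * ‖fderiv ℝ R x‖ ≤ 1 * (C1 * (2 * r)) :=
          mul_le_mul e1 e2 (norm_nonneg _) zero_le_one
        have e5 : ‖fderiv ℝ χ x‖ * ‖R x‖ ≤ (B / r) * (C1 * (2 * r) ^ 2) :=
          mul_le_mul (hχd x) e3 (norm_nonneg _) (by positivity)
        have e6 : (B / r) * (C1 * (2 * r) ^ 2) = 4 * B * C1 * r := by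
          field_simp
          ring
        rw [e6] at e5
        linarith
      · have e1 : ‖χ x‖ = 0 := by
          rw [← norm_iteratedFDeriv_zero (𝕜 := ℝ), hχout x h2 0, norm_zero]
        have e2 : ‖fderiv ℝ χ x‖ = 0 := by
          rw [← norm_iteratedFDeriv_one, hχout x h2 1, norm_zero]
        rw [e1, e2, zero_mul, zero_mul, add_zero]
        positivity
    calc ‖L‖⁻¹ * ‖iteratedFDeriv ℝ 1 (fun ξ => χ ξ * R ξ) x‖ ≤ c⁻¹ * (c / 2) :=
          mul_le_mul hinv h2 (norm_nonneg _) (by positivity)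
      _ = 1 / 2 := by field_simp
  obtain ⟨g, hg3, hg0, hg1, hg2, hg3b, hgiff⟩ := hM' rr ν hν1 hrr3
    (fun x => by
      have := hrrb 0 (by norm_num) x
      rwa [norm_iteratedFDeriv_zero, Real.norm_eq_abs] at this) hrr1
    (fun x => hrrb 2 (by norm_num) x) (fun x => hrrb 3 (by norm_num) x)
  refine ⟨ν, hν1, g, hg3.of_le (by norm_num), ?_, holder1 g hg3 M' hM'0 hg2 hg3b γ hγ0 hγ1, ?_⟩
  · intro x
    show |g x| ≤ 2 * M' ∧ ‖fderiv ℝ g x‖ ≤ 2 * M' ∧ ‖iteratedFDeriv ℝ 2 g x‖ ≤ 2 * M'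
    refine ⟨?_, ?_, ?_⟩
    · linarith [hg0 x]
    · linarith [hg1 x]
    · linarith [hg2 x]
  · intro q hq
    set ξ := q - p with hξ
    have hξr : ‖ξ‖ < r := by
      rw [mem_ball, dist_eq_norm] at hq
      exact hq
    have hqp : q = p + ξ := by rw [hξ, add_sub_cancel]
    rw [← hgiff ξ]
    have h1 : rr ξ = ‖L‖⁻¹ * R ξ := by
      rw [hrr]
      show ‖L‖⁻¹ • (χ ξ * R ξ) = _
      rw [hχone ξ hξr, one_mul, smul_eq_mul]
    have h2 : F q = R ξ - ‖L‖ * inner ℝ ξ ν := by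
      have := hLν ξ
      rw [hqp]
      show F (p + ξ) = (F (p + ξ) - L ξ) - ‖L‖ * inner ℝ ξ ν
      linarith
    rw [h1, h2, ← div_eq_inv_mul, div_lt_iff₀ hLpos]
    constructor
    · intro h; linarith
    · intro h; linarith


end Pool.Agent.Y520.EP
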