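import Pool.Agent.H52R3.EpiMain

set_option autoImplicit false

/-!
Solutions with a prescribed amplitude in every slot of the domain of `Pool/Agent/H314/Dir`.  The supersolution
with amplitude `a` is `S0 + (a - 1 / 4) Cf`; the differences do not matter where `Cf < -1 / 2`, so that
amplitudes can be prescribed independently in the slots.
-/

open Filter Topology Set Metric

namespace Pool.Agent.Y520.EP

open Pool.Agent.H314.Dir Pool.Agent.H52R3.Epi
open Pool.Agent.H314.Dir.Sp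

/-- the smooth part of the supersolution with amplitude `a` -/
noncomputable def SA (a : ℝ) (X : EX) : ℝ := S0 X + (a - 1 / 4) * Cf X

/-- the supersolution with amplitude `a` -/
noncomputable def Sa (a : ℝ) (X : EX) : ℝ :=
  max (min 1 (SA a X)) (max 0 (min 1 (16 * (qf X) ^ 2 * thf X - 1)))

theorem SA_eq (a : ℝ) (X : EX) : SA a X = Cf X * (a + bf X) + (1 - (Cf X) ^ 2) * gf X := by
  unfold SA S0; ring

theorem contDiff_SA (a : ℝ) : ContDiff ℝ 2 (SA a) := contDiff_S0.add (contDiff_const.mul contDiff_Cf)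

theorem Sa_lip (a : ℝ) : LocallyLipschitz (Sa a) := by
  unfold Sa
  have h1 : LocallyLipschitz (SA a) := ((contDiff_SA a).of_le (by norm_num)).locallyLipschitz
  have h2 : LocallyLipschitz (fun X => 16 * (qf X) ^ 2 * thf X - 1) :=
    (contDiff_E.of_le (by norm_num)).locallyLipschitz
  exact ((LocallyLipschitz.const 1).min h1).max
    ((LocallyLipschitz.const 0).max ((LocallyLipschitz.const 1).min h2))

theorem Sa_le_one (a : ℝ) (X : EX) : Sa a X ≤ 1 := by
  unfold Sa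
  exact max_le (min_le_left _ _) (max_le (by norm_num) (min_le_left _ _))

theorem Vf_le_Sa {a : ℝ} (h0 : 0 ≤ a) (h1 : a ≤ 1 / 2) (X : EX) : Vf a X ≤ Sa a X := by
  have hS : 0 ≤ Sa a X := by
    unfold Sa
    exact le_max_of_le_right (le_max_left _ _)
  unfold Vf
  by_cases hC : Cf X ≤ 0
  · rw [max_eq_left hC]; simpa using hS
  by_cases hb : 1 - bf X ≤ 0
  · rw [max_eq_left hb]; simpa using hS
  push Not at hC hb
  rw [max_eq_right hC.le, max_eq_right hb.le]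
  unfold Sa
  have e1 := Cf_le X
  have e2 := bf_pos X
  have e3 : a * Cf X ≤ 1 / 2 := by nlinarith
  have e5 : 0 ≤ a * Cf X := mul_nonneg h0 hC.le
  have e4 : a * Cf X * (1 - bf X) ≤ a * Cf X := by nlinarith
  refine le_max_of_le_left (le_min ?_ ?_)
  · linarith
  · rw [SA_eq]
    have h3 := gf_pos X
    have h4 : 0 ≤ (1 - Cf X ^ 2) * gf X := mul_nonneg (by nlinarith) h3.le
    nlinarith

theorem one_le_SA {a : ℝ} (h0a : 0 ≤ a) (h1a : a ≤ 1 / 2) {X : EX} (hX : FF X < 0)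
    (h1 : 1 ≤ 16 * (qf X) ^ 2 * thf X) (h2 : 8 * (qf X) ^ 2 * thf X < 1) : 1 ≤ SA a X := by
  have hq := qf_ge X
  have hq0 := qf_pos X
  set t := Real.sqrt (qf X) with ht
  have ht2 : t ^ 2 = qf X := Real.sq_sqrt hq0.le
  have ht1 : 1000 ≤ t := by
    rw [ht]
    apply Real.le_sqrt_of_sq_le
    norm_num
    exact hq
  have hexp : 16 * t ^ 6 + 32 * t ^ 7 ≤ Real.exp t := by
    have h3 := Real.pow_div_factorial_le_exp t (by linarith) 10
    refine le_trans ?_ h3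
    rw [le_div_iff₀ (by positivity)]
    have hf : ((Nat.factorial 10 : ℕ) : ℝ) = 3628800 := by norm_num [Nat.factorial]
    rw [hf]
    have h6 : 0 < t ^ 6 := by positivity
    have h4 : (16 + 32 * t) * 3628800 ≤ t ^ 4 := by
      have : 1000 ^ 3 * t ≤ t ^ 3 * t := by gcongr
      nlinarith
    calc (16 * t ^ 6 + 32 * t ^ 7) * 3628800 = t ^ 6 * ((16 + 32 * t) * 3628800) := by ring
      _ ≤ t ^ 6 * t ^ 4 := by gcongr
      _ = t ^ 10 := by ring
  have hy : 2 * t ^ 3 ≤ yf X := by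
    have h3 : Real.exp t ≤ 16 * t ^ 4 * (yf X + qf X) := by
      have h4 : thf X = (yf X + qf X) * (Real.exp t)⁻¹ := by
        unfold thf
        rw [← Real.exp_neg]
      rw [h4, ← ht2] at h1
      have h5 : 16 * (t ^ 2) ^ 2 * ((yf X + t ^ 2) * (Real.exp t)⁻¹)
          = (16 * t ^ 4 * (yf X + t ^ 2)) / Real.exp t := by
        field_simp
        try ring
      rw [h5, le_div_iff₀ (Real.exp_pos t), one_mul] at h1
      rw [← ht2]
      exact h1
    have h5 : t ^ 4 * (16 * t ^ 2 + 32 * t ^ 3) ≤ t ^ 4 * (16 * (yf X + qf X)) := by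
      calc t ^ 4 * (16 * t ^ 2 + 32 * t ^ 3) = 16 * t ^ 6 + 32 * t ^ 7 := by ring
        _ ≤ _ := hexp
        _ ≤ _ := h3
        _ = _ := by ring
    have h6 := le_of_mul_le_mul_left h5 (by positivity)
    rw [← ht2] at h6
    linarith
  have hg : 4 ≤ gf X := by
    unfold gf bf
    rw [le_div_iff₀ hq0]
    have h3 : 4 * (qf X) ^ 3 ≤ yf X ^ 2 := by
      have h4 : (2 * t ^ 3) ^ 2 ≤ yf X ^ 2 := pow_le_pow_left₀ (by positivity) hy 2
      calc 4 * (qf X) ^ 3 = (2 * t ^ 3) ^ 2 := by rw [← ht2]; ring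
        _ ≤ _ := h4
    have h4 : 4 * qf X = 4 * (qf X) ^ 3 * ((qf X) ^ 2)⁻¹ := by
      field_simp
    calc 4 * qf X = 4 * (qf X) ^ 3 * ((qf X) ^ 2)⁻¹ := h4
      _ ≤ yf X ^ 2 * ((qf X) ^ 2)⁻¹ := by gcongr
      _ ≤ _ := by
        have : 0 < (qf X)⁻¹ := by positivity
        linarith
  rw [SA_eq, bf_eq]
  rcases le_or_gt 0 (Cf X) with hC | hC
  · have hC1 := Cf_le X
    have h3 : Cf X * gf X ≤ Cf X * (qf X * gf X) := by
      have : gf X ≤ qf X * gf X := by nlinarith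
      gcongr
    have h4 : 0 ≤ Cf X * a := mul_nonneg hC h0a
    nlinarith
  · obtain ⟨h3, h4⟩ := small' hX h2 hC
    have h5 : -Cf X * qf X * gf X ≤ 1 / 1000000 * gf X := by gcongr
    have h6 : (Cf X) ^ 2 ≤ 1 / 1000000 := by nlinarith
    have h7 : Cf X ^ 2 * gf X ≤ 1 / 1000000 * gf X := by gcongr
    have h8 : -Cf X * a ≤ -Cf X * (1 / 2) := mul_le_mul_of_nonneg_left h1a (by linarith)
    nlinarith

theorem SA_pos {a : ℝ} (h0a : 0 ≤ a) (h1a : a ≤ 1 / 2) {X : EX} (hX : FF X < 0)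
    (h2 : 8 * (qf X) ^ 2 * thf X < 1) : 0 < SA a X := by
  have hq := qf_ge X
  have hq0 := qf_pos X
  have hg := gf_pos X
  rw [SA_eq, bf_eq]
  rcases le_or_gt 0 (Cf X) with hC | hC
  · have hC1 := Cf_le X
    rcases hC.eq_or_lt with h0 | h0
    · rw [← h0]; simpa using hg
    · have h3 : 0 < Cf X * (a + qf X * gf X) := mul_pos h0 (by positivity)
      have h4 : 0 ≤ (1 - Cf X ^ 2) * gf X := mul_nonneg (by nlinarith) hg.le
      linarith
  · obtain ⟨h3, h4⟩ := small' hX h2 hC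
    have h5 : -Cf X * qf X * gf X ≤ 1 / 1000000 * gf X := by gcongr
    have h6 : (Cf X) ^ 2 ≤ 1 / 1000000 := by nlinarith
    have h7 : Cf X ^ 2 * gf X ≤ 1 / 1000000 * gf X := by gcongr
    have h8 := small hX h2 hC
    have h9 := gf_ge X
    have h10 : 1 / (8 * (qf X) ^ 2) = 1 / (qf X) ^ 2 / 8 := by field_simp
    rw [h10] at h8
    have h11 : -Cf X * a ≤ -Cf X * (1 / 2) := mul_le_mul_of_nonneg_left h1a (by linarith)
    nlinarith

theorem lap_Cf (X : EX) : lap Cf X = -lam * Cf X := by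
  have c1 : ContDiff ℝ 2 (fun X : EX => A0 (X.ofLp 0) * (fun _ => (1:ℝ)) (qf X) * (fun _ => (1:ℝ)) (yf X)) :=
    (contDiff_Cf.mul contDiff_const).mul contDiff_const
  have e1 := Sb.lap_sep (A := A0) (B := fun _ => (1:ℝ)) (D := fun _ => (1:ℝ)) X A0_deriv A0_deriv2
    (fun q _ => hasDerivAt_const q _) (fun q _ => hasDerivAt_const q (0:ℝ)) one_deriv zero_deriv
    c1.contDiffAt
  have h1 : (fun X : EX => A0 (X.ofLp 0) * (fun _ => (1:ℝ)) (qf X) * (fun _ => (1:ℝ)) (yf X)) = Cf := by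
    funext Y
    simp only [mul_one]
    rfl
  rw [h1] at e1
  rw [e1]
  have h2 : Real.cos (Real.pi / 2 * X.ofLp 0) = Cf X := rfl
  rw [h2]
  ring

theorem SA_super (a : ℝ) {X : EX} (hX : FF X < 0) (h2 : 8 * (qf X) ^ 2 * thf X < 1) :
    lam * SA a X ≤ - lap (SA a) X := by
  obtain ⟨-, h⟩ := S0_super hX h2
  have h3 : lap (SA a) X = lap S0 X + (a - 1 / 4) * lap Cf X := by
    have h4 : lap (fun Y => S0 Y + (a - 1 / 4) * Cf Y) X = lap S0 X + lap (fun Y => (a - 1 / 4) * Cf Y) X :=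
      lap_add contDiff_S0.contDiffAt (contDiff_const.mul contDiff_Cf).contDiffAt
    rw [lap_const_mul _ contDiff_Cf.contDiffAt] at h4
    exact h4
  rw [h3, lap_Cf]
  unfold SA
  nlinarith

theorem Sa_super {a : ℝ} (h0a : 0 ≤ a) (h1a : a ≤ 1 / 2) {X : EX} (hX : FF X < 0) (h : Sa a X < 1) :
    ContDiffAt ℝ 2 (Sa a) X ∧ lam * Sa a X ≤ - lap (Sa a) X := by
  have hm1 : min 1 (16 * (qf X) ^ 2 * thf X - 1) < 1 := by
    refine lt_of_le_of_lt ?_ h
    unfold Sa
    exact le_max_of_le_right (le_max_right _ _)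
  have hm2 : min 1 (SA a X) < 1 := by
    refine lt_of_le_of_lt ?_ h
    unfold Sa
    exact le_max_left _ _
  have h16 : 16 * (qf X) ^ 2 * thf X - 1 < 1 := by
    rcases min_lt_iff.1 hm1 with h1 | h1
    · exact absurd h1 (lt_irrefl _)
    · exact h1
  have hS1 : SA a X < 1 := by
    rcases min_lt_iff.1 hm2 with h1 | h1
    · exact absurd h1 (lt_irrefl _)
    · exact h1
  have h8 : 8 * (qf X) ^ 2 * thf X < 1 := by linarith
  have hneg : 16 * (qf X) ^ 2 * thf X - 1 < 0 := by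
    by_contra hcon
    push Not at hcon
    have := one_le_SA h0a h1a hX (by linarith) h8
    linarith
  have hpos := SA_pos h0a h1a hX h8
  have e1 : ∀ᶠ Y in 𝓝 X, 16 * (qf Y) ^ 2 * thf Y - 1 < 0 :=
    (contDiff_E.continuous.continuousAt).eventually_lt_const hneg
  have e2 : ∀ᶠ Y in 𝓝 X, SA a Y < 1 :=
    ((contDiff_SA a).continuous.continuousAt).eventually_lt_const hS1
  have e3 : ∀ᶠ Y in 𝓝 X, 0 < SA a Y :=
    ((contDiff_SA a).continuous.continuousAt).eventually_const_lt hpos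
  have heq : Sa a =ᶠ[𝓝 X] SA a := by
    filter_upwards [e1, e2, e3] with Y h1 h2 h3
    unfold Sa
    rw [min_eq_right h2.le, min_eq_right (h1.trans one_pos).le, max_eq_left h1.le,
      max_eq_left h3.le]
  refine ⟨(contDiff_SA a).contDiffAt.congr_of_eventuallyEq heq, ?_⟩
  rw [lap_congr heq, heq.eq_of_nhds]
  exact SA_super a hX h8

/-! ### gluing -/

/-- the number of the slot -/
noncomputable def kk (X : EX) : ℤ := ⌊(X.ofLp 0 + 2) / 4⌋

theorem loc (X : EX) : (∀ᶠ Y in 𝓝 X, kk Y = kk X) ∨ (∀ᶠ Y in 𝓝 X, Cf Y < -(1 / 2)) := by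
  by_cases h : Cf X < -(1 / 2)
  · right
    exact contDiff_Cf.continuous.continuousAt.eventually_lt_const h
  · left
    have h1 : (kk X : ℝ) ≤ (X.ofLp 0 + 2) / 4 := Int.floor_le _
    have h2 : (X.ofLp 0 + 2) / 4 < kk X + 1 := Int.lt_floor_add_one _
    have h3 : (kk X : ℝ) ≠ (X.ofLp 0 + 2) / 4 := by
      intro he
      apply h
      have h4 : X.ofLp 0 = 4 * kk X - 2 := by linarith
      have h5 : Real.pi / 2 * (4 * (kk X : ℝ) - 2) = (kk X : ℝ) * (2 * Real.pi) - Real.pi := by ring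
      unfold Cf
      rw [h4, h5, Real.cos_sub_pi, Real.cos_int_mul_two_pi]
      norm_num
    have hc : ContinuousAt (fun Y : EX => (Y.ofLp 0 + 2) / 4) X := by fun_prop
    filter_upwards [hc.eventually_const_lt (lt_of_le_of_ne h1 h3), hc.eventually_lt_const h2] with Y a b
    exact Int.floor_eq_iff.2 ⟨a.le, b⟩

/-- admissible amplitudes -/
def Adm (c : ℤ → ℝ) : Prop := ∀ k, 0 ≤ c k ∧ c k ≤ 1 / 2

theorem glue {c : ℤ → ℝ} (hc : Adm c) (G : ℝ → EX → ℝ)
    (hG : ∀ a, 0 ≤ a → ∀ Y, Cf Y < -(1 / 2) → G a Y = G 0 Y) (X : EX) :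
    ∃ a, 0 ≤ a ∧ a ≤ 1 / 2 ∧ (fun Y => G (c (kk Y)) Y) =ᶠ[𝓝 X] G a := by
  rcases loc X with h | h
  · refine ⟨c (kk X), (hc _).1, (hc _).2, ?_⟩
    filter_upwards [h] with Y hY
    rw [hY]
  · refine ⟨0, le_rfl, by norm_num, ?_⟩
    filter_upwards [h] with Y hY
    exact hG _ (hc _).1 Y hY

theorem lip_of_local (F : EX → ℝ) (h : ∀ X, ∃ G : EX → ℝ, LocallyLipschitz G ∧ F =ᶠ[𝓝 X] G) :
    LocallyLipschitz F := by
  intro X
  obtain ⟨G, hG, he⟩ := h X
  obtain ⟨K, t, ht, hK⟩ := hG X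
  refine ⟨K, t ∩ {Y | F Y = G Y}, inter_mem ht he, ?_⟩
  intro Y hY Z hZ
  have h1 : F Y = G Y := hY.2
  have h2 : F Z = G Z := hZ.2
  rw [h1, h2]
  exact hK hY.1 hZ.1

theorem Sa_inv (a : ℝ) (ha : 0 ≤ a) (Y : EX) (hY : Cf Y < -(1 / 2)) : Sa a Y = Sa 0 Y := by
  have hneg : ∀ a, 0 ≤ a → SA a Y ≤ 0 := by
    intro a ha
    rw [SA_eq]
    have hb := bf_pos Y
    have hq := qf_ge Y
    have hg := gf_pos Y
    have hbe := bf_eq Y
    have h1 : gf Y ≤ bf Y / 1000000 := by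
      rw [hbe]
      nlinarith
    have h2 : (1 - Cf Y ^ 2) * gf Y ≤ 1 * gf Y := by
      apply mul_le_mul_of_nonneg_right _ hg.le
      nlinarith [sq_nonneg (Cf Y)]
    have h3 : Cf Y * (a + bf Y) ≤ -(1 / 2) * (a + bf Y) := by
      apply mul_le_mul_of_nonneg_right hY.le
      positivity
    nlinarith
  unfold Sa
  have h1 : ∀ a, 0 ≤ a → max (min 1 (SA a Y)) (max 0 (min 1 (16 * (qf Y) ^ 2 * thf Y - 1))) =
      max 0 (min 1 (16 * (qf Y) ^ 2 * thf Y - 1)) := by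
    intro a ha
    apply max_eq_right
    exact (min_le_right _ _).trans ((hneg a ha).trans (le_max_left _ _))
  rw [h1 a ha, h1 0 le_rfl]

theorem Vf_inv (a : ℝ) (_ha : 0 ≤ a) (Y : EX) (hY : Cf Y < -(1 / 2)) : Vf a Y = Vf 0 Y := by
  unfold Vf
  rw [max_eq_left (by linarith : Cf Y ≤ 0)]
  simp

/-- the glued subsolution -/
noncomputable def VV (c : ℤ → ℝ) (X : EX) : ℝ := Vf (c (kk X)) X

/-- the glued supersolution -/
noncomputable def SS (c : ℤ → ℝ) (X : EX) : ℝ := Sa (c (kk X)) X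

theorem kk_eq {X : EX} {k : ℤ} (h : |X.ofLp 0 - 4 * k| ≤ 1) : kk X = k := by
  obtain ⟨h1, h2⟩ := abs_le.1 h
  refine Int.floor_eq_iff.2 ⟨?_, ?_⟩ <;> linarith

theorem Cf_nonneg {X : EX} {k : ℤ} (h : |X.ofLp 0 - 4 * k| ≤ 1) : 0 ≤ Cf X := by
  obtain ⟨h1, h2⟩ := abs_le.1 h
  have h3 : Real.pi / 2 * X.ofLp 0 = Real.pi / 2 * (X.ofLp 0 - 4 * k) + (k : ℝ) * (2 * Real.pi) := by ring
  unfold Cf
  rw [h3, Real.cos_add_int_mul_two_pi]
  have hp := Real.pi_pos
  apply Real.cos_nonneg_of_mem_Icc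
  constructor <;> nlinarith

theorem exists_sol {c : ℤ → ℝ} (hc : Adm c) (hpos : ∃ k, 0 < c k) :
    ∃ u : EX → ℝ, ContDiffOn ℝ 2 u Om ∧ ContinuousOn u (closure Om) ∧
      (∀ x ∈ frontier Om, u x = 0) ∧ (∀ x ∈ Om, 0 < u x) ∧
      (∀ x ∈ Om, VV c x ≤ u x ∧ u x ≤ SS c x) ∧ (∀ x ∈ Om, - lap u x = fr (u x)) := by
  refine dirichlet_exists Om isOpen_Om ext_Om DF.isPreconnected_Omega fr 8 (by norm_num)
    locallyLipschitz_fr monotone_fr fr_nonneg fr_one (VV c) (SS c) ?_ ?_ ?_ ?_ ?_ ?_ ?_ ?_ ?_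
  · apply lip_of_local
    intro X
    obtain ⟨a, -, -, h⟩ := glue hc Vf Vf_inv X
    exact ⟨Vf a, Sb.Vf_locallyLipschitz a, h⟩
  · apply lip_of_local
    intro X
    obtain ⟨a, -, -, h⟩ := glue hc Sa Sa_inv X
    exact ⟨Sa a, Sa_lip a, h⟩
  · intro x
    exact Sb.Vf_nonneg (hc _).1 x
  · intro x
    exact Vf_le_Sa (hc _).1 (hc _).2 x
  · intro x
    exact Sa_le_one _ x
  · intro x hx
    by_contra h
    have h1 : 0 < VV c x := lt_of_le_of_ne (Sb.Vf_nonneg (hc _).1 x) (Ne.symm h)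
    exact hx (Sb.FF_neg_of_Vf_pos (hc _).1 h1)
  · intro x _ h
    obtain ⟨a, ha0, ha1, he⟩ := glue hc Vf Vf_inv x
    have he' : VV c =ᶠ[𝓝 x] Vf a := he
    have h1 : VV c x = Vf a x := he'.eq_of_nhds
    rw [h1] at h ⊢
    obtain ⟨h2, h3⟩ := Sb.Vf_sub ha0 h
    refine ⟨h2.congr_of_eventuallyEq he', ?_⟩
    rw [lap_congr he']
    have h4 := Sb.Vf_le ha0 x
    rw [fr_eq_ff (by linarith), Re.ff_eq (by linarith)]
    exact h3
  · intro x hx h
    obtain ⟨a, ha0, ha1, he⟩ := glue hc Sa Sa_inv x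
    have he' : SS c =ᶠ[𝓝 x] Sa a := he
    have h1 : SS c x = Sa a x := he'.eq_of_nhds
    rw [h1] at h ⊢
    obtain ⟨h2, h3⟩ := Sa_super ha0 ha1 hx h
    refine ⟨h2.congr_of_eventuallyEq he', ?_⟩
    rw [lap_congr he', fr_eq_ff h.le]
    exact (Re.ff_le _).trans h3
  · obtain ⟨k, hk⟩ := hpos
    refine ⟨EuclideanSpace.single 0 (4 * (k : ℝ)), ?_⟩
    set X : EX := EuclideanSpace.single 0 (4 * (k : ℝ)) with hX
    have h0 : X.ofLp 0 = 4 * (k : ℝ) := by rw [hX]; simp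
    have hkk : kk X = k := kk_eq (by rw [h0]; simp)
    have hq : qf X = 1000000 := by
      unfold qf
      have h1 : ∀ i : Fin 8, X.ofLp (Fin.castSucc i.succ) = 0 := by
        intro i
        rw [hX]
        have h2 : (Fin.castSucc i.succ : Fin (9 + 1)) ≠ 0 := by
          intro h3
          exact Fin.succ_ne_zero i (Fin.castSucc_injective _ h3)
        simp [h2]
      rw [Finset.sum_eq_zero (fun i _ => by rw [h1 i]; norm_num), add_zero]
    have hy : yf X = 0 := by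
      unfold yf
      rw [hX]
      have h2 : (Fin.last 9 : Fin (9 + 1)) ≠ 0 := by decide
      simp [h2]
    have hC : Cf X = 1 := by
      unfold Cf
      rw [h0]
      have h1 : Real.pi / 2 * (4 * (k : ℝ)) = (k : ℝ) * (2 * Real.pi) := by ring
      rw [h1, Real.cos_int_mul_two_pi]
    show 0 < Vf (c (kk X)) X
    rw [hkk]
    unfold Vf bf
    rw [hq, hy, hC]
    have h1 : (0:ℝ) < max 0 1 := by norm_num
    have h2 : (0:ℝ) < max 0 (1 - ((1000000:ℝ)⁻¹ + 0 ^ 2 * (1000000 ^ 2)⁻¹)) := by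
      rw [lt_max_iff]
      right
      norm_num
    positivity

/-- the amplitude in the slots -/
theorem amp_bound {c : ℤ → ℝ} (hc : Adm c) {u : EX → ℝ}
    (hu : ∀ x ∈ Om, VV c x ≤ u x ∧ u x ≤ SS c x) {X : EX} {k : ℤ} (h : |X.ofLp 0 - 4 * k| ≤ 1)
    (hy : |yf X| < qf X) : X ∈ Om ∧ |u X - c k * Cf X| ≤ 2 * bf X := by
  have hC := Cf_nonneg h
  have hC1 := Cf_le X
  have hkk := kk_eq h
  have hq := qf_ge X
  have hq0 := qf_pos X
  have hb := bf_pos X
  have hg := gf_pos X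
  obtain ⟨y1, y2⟩ := abs_lt.1 hy
  have hth : 0 < thf X := mul_pos (by linarith) (Real.exp_pos _)
  have hmem : X ∈ Om := by
    show FF X < 0
    unfold FF
    linarith
  refine ⟨hmem, ?_⟩
  obtain ⟨h1, h2⟩ := hu X hmem
  unfold VV at h1
  unfold SS at h2
  rw [hkk] at h1 h2
  obtain ⟨c0, c1⟩ := hc k
  have hgb : gf X ≤ bf X := by
    rw [bf_eq]
    nlinarith
  -- the exponential is small
  have hexp : 16 * (qf X) ^ 2 * thf X ≤ 1 := by
    set t := Real.sqrt (qf X) with ht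
    have ht2 : t ^ 2 = qf X := Real.sq_sqrt hq0.le
    have ht1 : 1000 ≤ t := by
      rw [ht]
      apply Real.le_sqrt_of_sq_le
      norm_num
      exact hq
    have h3 := Real.pow_div_factorial_le_exp t (by linarith) 10
    have hf : ((Nat.factorial 10 : ℕ) : ℝ) = 3628800 := by norm_num [Nat.factorial]
    rw [hf] at h3
    have h4 : 32 * t ^ 6 ≤ Real.exp t := by
      refine le_trans ?_ h3
      rw [le_div_iff₀ (by norm_num)]
      have h5 : 32 * 3628800 ≤ t ^ 4 := by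
        have : (1000:ℝ) ^ 4 ≤ t ^ 4 := by gcongr
        linarith
      calc 32 * t ^ 6 * 3628800 = t ^ 6 * (32 * 3628800) := by ring
        _ ≤ t ^ 6 * t ^ 4 := by gcongr
        _ = t ^ 10 := by ring
    have h6 : thf X ≤ 2 * qf X * Real.exp (-t) := by
      unfold thf
      rw [← ht]
      apply mul_le_mul_of_nonneg_right _ (Real.exp_pos _).le
      linarith
    calc 16 * (qf X) ^ 2 * thf X ≤ 16 * (qf X) ^ 2 * (2 * qf X * Real.exp (-t)) := by gcongr
      _ = (32 * t ^ 6) * Real.exp (-t) := by rw [← ht2]; ring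
      _ ≤ Real.exp t * Real.exp (-t) := by gcongr
      _ = 1 := by rw [← Real.exp_add]; simp
  have hCc : 0 ≤ c k * Cf X := mul_nonneg c0 hC
  rw [abs_le]
  constructor
  · -- lower bound
    have h5 : c k * Cf X - bf X ≤ Vf (c k) X := by
      unfold Vf
      rw [max_eq_right hC]
      have h6 : c k * Cf X * (1 - bf X) ≤ c k * Cf X * max 0 (1 - bf X) := by
        gcongr
        exact le_max_right _ _
      have h7 : c k * Cf X ≤ 1 := by nlinarith
      nlinarith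
    linarith
  · have h5 : Sa (c k) X ≤ c k * Cf X + 2 * bf X := by
      unfold Sa
      have h6 : 0 ≤ (1 - Cf X ^ 2) * gf X := mul_nonneg (by nlinarith) hg.le
      have h7 : (1 - Cf X ^ 2) * gf X ≤ 1 * gf X := by
        apply mul_le_mul_of_nonneg_right _ hg.le
        nlinarith [sq_nonneg (Cf X)]
      have h8 : Cf X * bf X ≤ 1 * bf X := by gcongr
      refine max_le ((min_le_right _ _).trans ?_) (max_le ?_ ((min_le_right _ _).trans ?_))
      · rw [SA_eq]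
        nlinarith
      · positivity
      · nlinarith
    linarith

end Pool.Agent.Y520.EP
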