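import Pool.Agent.Y520.EP.Amp

set_option autoImplicit false

/-!
The amplitude zero in all slots: a subsolution with compact support above the walls.
-/

open Filter Topology Set Metric

namespace Pool.Agent.Y520.EP

open Pool.Agent.H314.Dir Pool.Agent.H52R3.Epi
open Pool.Agent.H314.Dir.Sp

/-- a point far up -/
noncomputable def X0 : EX := EuclideanSpace.single (Fin.last 9) (2 * Real.exp 1001 + 10)

/-- a bump with centre `X0` and radius `10` -/
noncomputable def V0 (X : EX) : ℝ := 1 / 2 * (max 0 (1 - ‖X - X0‖ ^ 2 / 100)) ^ 2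

theorem V0_nonneg (X : EX) : 0 ≤ V0 X := by
  unfold V0
  positivity

theorem V0_le (X : EX) : V0 X ≤ 1 / 2 := by
  unfold V0
  have h1 : max 0 (1 - ‖X - X0‖ ^ 2 / 100) ≤ 1 := max_le zero_le_one (by nlinarith [sq_nonneg ‖X - X0‖])
  have h2 : (0:ℝ) ≤ max 0 (1 - ‖X - X0‖ ^ 2 / 100) := le_max_left _ _
  nlinarith

theorem V0_pos {X : EX} (h : 0 < V0 X) : ‖X - X0‖ ^ 2 < 100 := by
  by_contra hc
  push Not at hc
  unfold V0 at h
  rw [max_eq_left (by linarith : 1 - ‖X - X0‖ ^ 2 / 100 ≤ 0)] at h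
  norm_num at h

theorem V0_lip : LocallyLipschitz V0 := by
  have h1 : ContDiff ℝ 1 (fun X : EX => 1 - ‖X - X0‖ ^ 2 / 100) :=
    contDiff_const.sub (((contDiff_id.sub contDiff_const).norm_sq ℝ).div_const _)
  have h2 : LocallyLipschitz (fun X : EX => max 0 (1 - ‖X - X0‖ ^ 2 / 100)) :=
    (LocallyLipschitz.const 0).max h1.locallyLipschitz
  have h3 : ContDiff ℝ 1 (fun t : ℝ => 1 / 2 * t ^ 2) := contDiff_const.mul (contDiff_id.pow 2)
  exact h3.locallyLipschitz.comp h2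

theorem far {X : EX} (h : ‖X - X0‖ ^ 2 < 100) : 2 ≤ thf X := by
  have hsum : ‖X - X0‖ ^ 2 = ∑ i, ((X - X0).ofLp i) ^ 2 := by
    rw [EuclideanSpace.norm_sq_eq]
    refine Finset.sum_congr rfl fun i _ => ?_
    rw [Real.norm_eq_abs, sq_abs]
  rw [Fin.sum_univ_castSucc, Fin.sum_univ_succ] at hsum
  have hX0 : ∀ i : Fin 9, X0.ofLp (Fin.castSucc i) = 0 := by
    intro i
    have h2 : (Fin.castSucc i : Fin (9 + 1)) ≠ Fin.last 9 := (Fin.castSucc_lt_last i).ne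
    show (PiLp.single 2 (Fin.last 9) (2 * Real.exp 1001 + 10) : EX).ofLp (Fin.castSucc i) = 0
    rw [PiLp.single_apply, if_neg h2]
  have hX0l : X0.ofLp (Fin.last 9) = 2 * Real.exp 1001 + 10 := by
    unfold X0
    simp
  have hs : ∑ i : Fin 8, ((X - X0).ofLp (Fin.castSucc i.succ)) ^ 2 =
      ∑ i : Fin 8, (X.ofLp (Fin.castSucc i.succ)) ^ 2 := by
    refine Finset.sum_congr rfl fun i _ => ?_
    rw [PiLp.sub_apply, hX0, sub_zero]
  rw [hs] at hsum
  have hl : (X - X0).ofLp (Fin.last 9) = yf X - (2 * Real.exp 1001 + 10) := by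
    rw [PiLp.sub_apply, hX0l]
    rfl
  rw [hl] at hsum
  have hq : qf X = 1000000 + ∑ i : Fin 8, (X.ofLp (Fin.castSucc i.succ)) ^ 2 := rfl
  have hs0 : 0 ≤ ∑ i : Fin 8, (X.ofLp (Fin.castSucc i.succ)) ^ 2 := Finset.sum_nonneg fun i _ => sq_nonneg _
  have h00 := sq_nonneg ((X - X0).ofLp (Fin.castSucc 0))
  have hyy := sq_nonneg (yf X - (2 * Real.exp 1001 + 10))
  have hq1 : qf X ≤ 1001 ^ 2 := by
    rw [hq]
    nlinarith
  have hsq : Real.sqrt (qf X) ≤ 1001 := by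
    rw [show (1001:ℝ) = Real.sqrt (1001 ^ 2) by rw [Real.sqrt_sq (by norm_num)]]
    exact Real.sqrt_le_sqrt hq1
  have hy : 2 * Real.exp 1001 ≤ yf X := by
    have h1 : (yf X - (2 * Real.exp 1001 + 10)) ^ 2 < 10 ^ 2 := by nlinarith
    have h2 := abs_lt_of_sq_lt_sq h1 (by norm_num)
    have h3 := (abs_lt.1 h2).1
    linarith
  have hq0 := qf_pos X
  unfold thf
  have h1 : Real.exp (-1001) ≤ Real.exp (-Real.sqrt (qf X)) := Real.exp_le_exp.2 (by linarith)
  have h2 : (0:ℝ) < Real.exp 1001 := Real.exp_pos _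
  calc (2:ℝ) = 2 * Real.exp 1001 * Real.exp (-1001) := by
        rw [mul_assoc, ← Real.exp_add]
        norm_num
    _ ≤ (yf X + qf X) * Real.exp (-Real.sqrt (qf X)) := by
        apply mul_le_mul (by linarith) h1 (Real.exp_pos _).le (by linarith)

theorem V0_sub {X : EX} (h : 0 < V0 X) : ContDiffAt ℝ 2 V0 X ∧ - lap V0 X ≤ lam * V0 X := by
  have h1 := V0_pos h
  have hc2 : ContDiff ℝ 2 (fun Y : EX => ‖Y - X0‖ ^ 2) := (contDiff_id.sub contDiff_const).norm_sq ℝ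
  have he : V0 =ᶠ[𝓝 X] fun Y => (fun r : ℝ => 1 / 2 * (1 - r / 100) ^ 2) (‖Y - X0‖ ^ 2) := by
    have h2 : ∀ᶠ Y in 𝓝 X, ‖Y - X0‖ ^ 2 < 100 := hc2.continuous.continuousAt.eventually_lt_const h1
    filter_upwards [h2] with Y hY
    unfold V0
    rw [max_eq_right (by linarith : 0 ≤ 1 - ‖Y - X0‖ ^ 2 / 100)]
  have hC : ContDiff ℝ 2 (fun Y : EX => (fun r : ℝ => 1 / 2 * (1 - r / 100) ^ 2) (‖Y - X0‖ ^ 2)) :=
    contDiff_const.mul ((contDiff_const.sub (hc2.div_const _)).pow 2)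
  refine ⟨hC.contDiffAt.congr_of_eventuallyEq he, ?_⟩
  have hg : ∀ r : ℝ, HasDerivAt (fun r : ℝ => 1 / 2 * (1 - r / 100) ^ 2) (-(1 / 100) * (1 - r / 100)) r := by
    intro r
    have h2 : HasDerivAt (fun r : ℝ => 1 - r / 100) (-(1 / 100)) r := by
      simpa using ((hasDerivAt_id r).div_const 100).const_sub 1
    have h3 := (h2.pow 2).const_mul (1 / 2 : ℝ)
    refine h3.congr_deriv ?_
    simp
    ring
  have hg' : ∀ r : ℝ, HasDerivAt (fun r : ℝ => -(1 / 100) * (1 - r / 100)) (1 / 10000) r := by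
    intro r
    have h2 : HasDerivAt (fun r : ℝ => 1 - r / 100) (-(1 / 100)) r := by
      simpa using ((hasDerivAt_id r).div_const 100).const_sub 1
    refine (h2.const_mul (-(1 / 100) : ℝ)).congr_deriv ?_
    norm_num
  have h4 := lap_radial (g := fun r : ℝ => 1 / 2 * (1 - r / 100) ^ 2)
    (g' := fun r : ℝ => -(1 / 100) * (1 - r / 100)) (g'' := fun _ => 1 / 10000) X0 X
    (Eventually.of_forall hg) (hg' _) hC.contDiffAt
  rw [lap_congr he, h4, he.eq_of_nhds]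
  obtain ⟨l1, l2⟩ := lam_bounds
  set r := ‖X - X0‖ ^ 2 with hr
  have hr0 : 0 ≤ r := sq_nonneg _
  have e1 : -(4 * r * (1 / 10000) + 2 * ((9 + 1 : ℕ) : ℝ) * (-(1 / 100) * (1 - r / 100))) ≤
      2.46 * (1 / 2 * (1 - r / 100) ^ 2) := by
    push_cast
    nlinarith [sq_nonneg (1 - r / 100 - 1 / 10)]
  have e2 : 2.46 * (1 / 2 * (1 - r / 100) ^ 2) ≤ lam * (1 / 2 * (1 - r / 100) ^ 2) := by
    apply mul_le_mul_of_nonneg_right l1.le
    positivity
  exact e1.trans e2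

theorem exists_sol_zero {c : ℤ → ℝ} (hc : ∀ k, c k = 0) :
    ∃ u : EX → ℝ, ContDiffOn ℝ 2 u Om ∧ ContinuousOn u (closure Om) ∧
      (∀ x ∈ frontier Om, u x = 0) ∧ (∀ x ∈ Om, 0 < u x) ∧
      (∀ x ∈ Om, VV c x ≤ u x ∧ u x ≤ SS c x) ∧ (∀ x ∈ Om, - lap u x = fr (u x)) := by
  have hSS : SS c = Sa 0 := by
    funext x
    unfold SS
    rw [hc]
  have hVV : ∀ x, VV c x = 0 := by
    intro x
    unfold VV Vf
    rw [hc]
    simp
  have hSge : ∀ x, 0 ≤ Sa 0 x := by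
    intro x
    unfold Sa
    exact le_max_of_le_right (le_max_left _ _)
  have hmem : ∀ x : EX, 0 < V0 x → FF x < 0 ∧ Sa 0 x = 1 := by
    intro x hx
    have h1 := far (V0_pos hx)
    have h2 := Cf_ge x
    refine ⟨by unfold FF; linarith, ?_⟩
    apply le_antisymm (Sa_le_one _ _)
    unfold Sa
    have hq := qf_ge x
    have h3 : 1 ≤ 16 * qf x ^ 2 * thf x - 1 := by
      have h4 : (1:ℝ) ≤ qf x ^ 2 := by nlinarith
      nlinarith
    rw [min_eq_left h3]
    exact le_max_of_le_right (le_max_right _ _)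
  obtain ⟨u, u1, u2, u3, u4, u5, u6⟩ := dirichlet_exists Om isOpen_Om ext_Om DF.isPreconnected_Omega fr 8
    (by norm_num) locallyLipschitz_fr monotone_fr fr_nonneg fr_one V0 (Sa 0) V0_lip (Sa_lip 0) V0_nonneg
    (by
      intro x
      rcases (V0_nonneg x).eq_or_lt with h | h
      · rw [← h]; exact hSge x
      · rw [(hmem x h).2]
        have := V0_le x
        linarith)
    (Sa_le_one 0)
    (by
      intro x hx
      by_contra h
      exact hx (hmem x (lt_of_le_of_ne (V0_nonneg x) (Ne.symm h))).1)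
    (by
      intro x _ h
      obtain ⟨h2, h3⟩ := V0_sub h
      refine ⟨h2, ?_⟩
      have h4 := V0_le x
      rw [fr_eq_ff (by linarith), Re.ff_eq h4]
      exact h3)
    (by
      intro x hx h
      obtain ⟨h2, h3⟩ := Sa_super le_rfl (by norm_num) hx h
      refine ⟨h2, ?_⟩
      rw [fr_eq_ff h.le]
      exact (Re.ff_le _).trans h3)
    ⟨X0, by unfold V0; norm_num⟩
  refine ⟨u, u1, u2, u3, u4, fun x hx => ⟨?_, ?_⟩, u6⟩
  · rw [hVV]
    exact (u4 x hx).le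
  · rw [hSS]
    exact (u5 x hx).2

/-- all amplitudes -/
theorem exists_sol' {c : ℤ → ℝ} (hc : Adm c) :
    ∃ u : EX → ℝ, ContDiffOn ℝ 2 u Om ∧ ContinuousOn u (closure Om) ∧
      (∀ x ∈ frontier Om, u x = 0) ∧ (∀ x ∈ Om, 0 < u x) ∧
      (∀ x ∈ Om, VV c x ≤ u x ∧ u x ≤ SS c x) ∧ (∀ x ∈ Om, - lap u x = fr (u x)) := by
  by_cases h : ∃ k, 0 < c k
  · exact exists_sol hc h
  · push Not at h
    exact exists_sol_zero fun k => le_antisymm (h k) (hc k).1

end Pool.Agent.Y520.EP
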